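import Pool.Agent.helper66.WD.Spec

/-!
# Project WD (MP_dc9173_lc): row MBD (the bound is polynomial)
-/

universe u

namespace Pool.Agent.WD

/-- polynomially bounded in `n + w + d` -/
def MBD_small (g : ℕ → ℕ → ℕ → ℕ) : Prop :=
  ∃ E : ℕ, ∀ n w d : ℕ, g n w d ≤ (n + w + d + 2) ^ E

lemma MBD_const (c : ℕ) : MBD_small (fun _ _ _ => c) := by
  refine ⟨c, fun n w d => ?_⟩
  calc c ≤ 2 ^ c := Nat.lt_two_pow_self.le
    _ ≤ (n + w + d + 2) ^ c := Nat.pow_le_pow_left (by omega) c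

lemma MBD_n : MBD_small (fun n _ _ => n) := ⟨1, fun n w d => by rw [pow_one]; dsimp only; omega⟩

lemma MBD_w : MBD_small (fun _ w _ => w) := ⟨1, fun n w d => by rw [pow_one]; dsimp only; omega⟩

lemma MBD_d : MBD_small (fun _ _ d => d) := ⟨1, fun n w d => by rw [pow_one]; dsimp only; omega⟩

lemma MBD_add {f g : ℕ → ℕ → ℕ → ℕ} (hf : MBD_small f) (hg : MBD_small g) :
    MBD_small (fun n w d => f n w d + g n w d) := by
  obtain ⟨E, hE⟩ := hf
  obtain ⟨F, hF⟩ := hg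
  refine ⟨E + F + 1, fun n w d => ?_⟩
  have h1 : (n + w + d + 2) ^ E ≤ (n + w + d + 2) ^ (E + F) :=
    Nat.pow_le_pow_right (by omega) (by omega)
  have h2 : (n + w + d + 2) ^ F ≤ (n + w + d + 2) ^ (E + F) :=
    Nat.pow_le_pow_right (by omega) (by omega)
  calc f n w d + g n w d ≤ (n + w + d + 2) ^ (E + F) + (n + w + d + 2) ^ (E + F) :=
        add_le_add ((hE n w d).trans h1) ((hF n w d).trans h2)
    _ = (n + w + d + 2) ^ (E + F) * 2 := by ring
    _ ≤ (n + w + d + 2) ^ (E + F) * (n + w + d + 2) := Nat.mul_le_mul_left _ (by omega)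
    _ = _ := by rw [pow_succ]

lemma MBD_mul {f g : ℕ → ℕ → ℕ → ℕ} (hf : MBD_small f) (hg : MBD_small g) :
    MBD_small (fun n w d => f n w d * g n w d) := by
  obtain ⟨E, hE⟩ := hf
  obtain ⟨F, hF⟩ := hg
  refine ⟨E + F, fun n w d => ?_⟩
  rw [pow_add]
  exact Nat.mul_le_mul (hE n w d) (hF n w d)

lemma MBD_pow {f : ℕ → ℕ → ℕ → ℕ} (hf : MBD_small f) (c : ℕ) :
    MBD_small (fun n w d => f n w d ^ c) := by
  obtain ⟨E, hE⟩ := hf
  refine ⟨E * c, fun n w d => ?_⟩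
  rw [pow_mul]
  exact Nat.pow_le_pow_left (hE n w d) c

lemma MBD_wd {f : ℕ → ℕ → ℕ → ℕ} (hf : MBD_small f) (s : ℕ) :
    MBD_small (fun n w d => wd (f n w d) s) := by
  induction s with
  | zero => exact MBD_const 1
  | succ s ih => exact MBD_mul (MBD_mul (MBD_const 4) hf) (MBD_pow ih 2)

theorem MBD : MBD_stmt := by
  intro c
  have hH : MBD_small (fun _ w d => hbound c w (d + c)) := by
    unfold hbound
    have a1 : MBD_small (fun _ w _ => w + 1) := MBD_add MBD_w (MBD_const 1)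
    have a2 : MBD_small (fun _ _ d => d + c + 2) :=
      MBD_add (MBD_add MBD_d (MBD_const c)) (MBD_const 2)
    exact MBD_mul (MBD_const 2) (MBD_mul (MBD_mul (MBD_const (c + 1)) (MBD_pow (MBD_mul a1 a2) c))
      (MBD_mul a1 (MBD_pow a2 _)))
  have hW := MBD_wd hH c
  have hd : MBD_small (fun _ _ d => d + 1) := MBD_add MBD_d (MBD_const 1)
  have hn : MBD_small (fun n _ _ => n + 1) := MBD_add MBD_n (MBD_const 1)
  have hs : MBD_small (fun n w d => 8 * (n + 1) * (d + 1) *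
      (wd (hbound c w (d + c)) c * (d + 1) + 2) ^ 2 + 1) :=
    MBD_add (MBD_mul (MBD_mul (MBD_mul (MBD_const 8) hn) hd)
      (MBD_pow (MBD_add (MBD_mul hW hd) (MBD_const 2)) 2)) (MBD_const 1)
  have hM : MBD_small (fun n w d => mbound c n w d) := by
    unfold mbound obound
    exact MBD_add (MBD_add (MBD_add (MBD_mul (MBD_mul (MBD_const (c + 1)) (MBD_pow hd 2)) hs)
      (MBD_mul (MBD_mul (MBD_const c) hd) (MBD_mul (MBD_pow hn c) (MBD_const (c + 2)))))
      (MBD_mul (MBD_pow hd 2) (MBD_add (MBD_mul (MBD_const (5 * (c + 1))) (MBD_pow hd 2))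
        (MBD_const 2)))) MBD_n
  exact hM

end Pool.Agent.WD
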