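import Pool.Agent.helper66.WD.Spec

/-!
# Project WD (MP_dc9173_lc): row NRM (normalisation over a valuation ring)
-/

universe u

namespace Pool.Agent.WD

open MvPolynomial Pool.Agent.helper92.VC

/-- a nonzero element of a finite set which divides all the others -/
lemma NRM_choose (R K : Type u) [CommRing R] [IsDomain R] [ValuationRing R] [Field K]
    [Algebra R K] [IsFractionRing R K] (S : Finset K) (hS : ∃ x ∈ S, x ≠ 0) :
    ∃ c ∈ S, c ≠ 0 ∧ ∀ x ∈ S, ∃ a : R, algebraMap R K a = c⁻¹ * x := by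
  classical
  obtain ⟨x0, hx0, hx0'⟩ := hS
  obtain ⟨c, hc, hmax⟩ := S.exists_max_image (ValuationRing.valuation R K) ⟨x0, hx0⟩
  have hc0 : c ≠ 0 := by
    rintro rfl
    have h1 := hmax x0 hx0
    rw [map_zero] at h1
    exact hx0' ((map_eq_zero _).1 (le_zero_iff.1 h1))
  refine ⟨c, hc, hc0, fun x hx => ?_⟩
  have h2 : c⁻¹ * x ∈ (ValuationRing.valuation R K).integer := by
    rw [Valuation.mem_integer_iff, map_mul, map_inv₀]
    have h3 : (ValuationRing.valuation R K) c ≠ 0 := by
      rw [Ne, map_eq_zero]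
      exact hc0
    calc ((ValuationRing.valuation R K) c)⁻¹ * (ValuationRing.valuation R K) x
        ≤ ((ValuationRing.valuation R K) c)⁻¹ * (ValuationRing.valuation R K) c :=
          mul_le_mul_right (hmax x hx) _
      _ = 1 := inv_mul_cancel₀ h3
  exact (ValuationRing.mem_integer_iff R K _).1 h2

theorem NRM : NRM_stmt.{u} := by
  classical
  intro R K k _ _ _ _ _ _ _ π σ _ r F hF
  obtain ⟨m0, hm0, hF0⟩ := hF
  let S : Finset K := (Finset.range (r + 1)).biUnion fun m => (F m).support.image fun e => (F m).coeff e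
  have hS : ∃ x ∈ S, x ≠ 0 := by
    obtain ⟨e, he⟩ := MvPolynomial.ne_zero_iff.1 hF0
    refine ⟨(F m0).coeff e, ?_, he⟩
    refine Finset.mem_biUnion.2 ⟨m0, Finset.mem_range.2 (by omega), ?_⟩
    exact Finset.mem_image.2 ⟨e, MvPolynomial.mem_support_iff.2 he, rfl⟩
  obtain ⟨c, hc, hc0, hdiv⟩ := NRM_choose R K S hS
  have hex : ∀ m ≤ r, ∃ Q : MvPolynomial σ R, MvPolynomial.map (algebraMap R K) Q = C c⁻¹ * F m := by
    intro m hm
    have h1 : C c⁻¹ * F m ∈ Set.range (MvPolynomial.map (σ := σ) (algebraMap R K)) := by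
      rw [MvPolynomial.mem_range_map_iff_coeffs_subset]
      intro y hy
      obtain ⟨e, he, rfl⟩ := MvPolynomial.mem_coeffs_iff.1 hy
      rw [coeff_C_mul]
      have he' : (F m).coeff e ≠ 0 := by
        intro h0
        rw [MvPolynomial.mem_support_iff, coeff_C_mul, h0, mul_zero] at he
        exact he rfl
      obtain ⟨a, ha⟩ := hdiv ((F m).coeff e) (Finset.mem_biUnion.2 ⟨m, Finset.mem_range.2 (by omega),
        Finset.mem_image.2 ⟨e, MvPolynomial.mem_support_iff.2 he', rfl⟩⟩)
      exact ⟨a, ha⟩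
    exact h1
  choose! F' hF' using hex
  refine ⟨c⁻¹, F', inv_ne_zero hc0, hF', ?_⟩
  obtain ⟨m, hm, hm'⟩ := Finset.mem_biUnion.1 hc
  obtain ⟨e, he, hec⟩ := Finset.mem_image.1 hm'
  have hmr : m ≤ r := by
    have := Finset.mem_range.1 hm
    omega
  refine ⟨m, hmr, ?_⟩
  have h3 : algebraMap R K ((F' m).coeff e) = 1 := by
    rw [← MvPolynomial.coeff_map, hF' m hmr, coeff_C_mul, hec, inv_mul_cancel₀ hc0]
  have h4 : (F' m).coeff e = 1 := by
    apply IsFractionRing.injective R K
    rw [h3, map_one]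
  intro h5
  have h6 : (MvPolynomial.map π (F' m)).coeff e = 0 := by rw [h5, coeff_zero]
  rw [MvPolynomial.coeff_map, h4, map_one] at h6
  exact one_ne_zero h6

end Pool.Agent.WD
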